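import Pool.Agent.H84.Sch.FMZ
import Pool.Agent.H89.SG.Gap
import Pool.Agent.H89.SG.Haag
import Pool.Agent.H49.HY.MS

/-!
# Complex hyperbolic lattices have a nontrivial Schreier growth gap

Let `G` be a torsion-free discrete cocompact subgroup of `U(2,1)`, acting on the unit ball of `ℂ²`.
Then `G` is a hyperbolic group with a nontrivial (superlinear) Schreier growth gap, and it is
a-T-menable, so that it has no infinite subgroup with Kazhdan's property (T). If moreover `G` is
virtually RFRS, then no infinite subgroup of `G` has property FM, so that `G` is an example as asked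
for in Q1.
-/

set_option autoImplicit false

namespace Pool.Agent.Results.MP_b77ed1_al.BallGap

open Complex

/-- The word metric of `G` with respect to `S`: the distance in the Cayley graph. -/
noncomputable def wd {G : Type} [Group G] (S : Finset G) (g h : G) : ℕ :=
  (SimpleGraph.fromRel fun a b : G => a⁻¹ * b ∈ S).dist g h

/-- `S` generates `G` and the word metric satisfies the four-point condition. -/
def Hyperbolic (G : Type) [Group G] (S : Finset G) : Prop :=
  Subgroup.closure (S : Set G) = ⊤ ∧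
    ∃ δ : ℕ, ∀ x y z w : G, wd S x y + wd S z w ≤
      max (wd S x z + wd S y w) (wd S x w + wd S y z) + 2 * δ

/-- The ball of radius `m` around `x` in the Schreier graph of a `G`-set. -/
def ball {G : Type} [Group G] (S : Finset G) {X : Type} [MulAction G X] (m : ℕ) (x : X) :
    Set X :=
  {y | ∃ g : G, wd S 1 g ≤ m ∧ g • x = y}

/-- `f` is a Schreier growth gap of `G`. -/
def IsGap (G : Type) [Group G] (S : Finset G) (f : ℕ → ℝ) : Prop :=
  ∀ (X : Type) [MulAction G X], FaithfulSMul G X →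
    ∃ C : ℕ, 0 < C ∧ ∀ n : ℕ, ∃ x : X, f n ≤ (C : ℝ) * ((ball S (C * n) x).ncard : ℝ)

/-- `G` has a nontrivial (superlinear) Schreier growth gap. -/
def HasNontrivialGap (G : Type) [Group G] (S : Finset G) : Prop :=
  ∃ f : ℕ → ℝ, Filter.Tendsto (fun n : ℕ => f n / (n : ℝ)) Filter.atTop Filter.atTop ∧
    IsGap G S f

/-- Property FM: every action with an invariant mean has a finite orbit. -/
def FM (K : Type) [Group K] : Prop :=
  ∀ (X : Type) [MulAction K X],
    (∃ m : Set X → ℝ, (∀ A, 0 ≤ m A) ∧ m Set.univ = 1 ∧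
      (∀ A B, Disjoint A B → m (A ∪ B) = m A + m B) ∧
      ∀ (k : K) (A : Set X), m ((fun x => k • x) ⁻¹' A) = m A) →
    ∃ x : X, (MulAction.orbit K x).Finite

/-- the Hermitian form of signature `(2,1)` -/
def J : Matrix (Fin 3) (Fin 3) ℂ := Matrix.diagonal ![1, 1, -1]

/-- `|z_1|² + |z_2|²` -/
noncomputable def nsq (z : ℂ × ℂ) : ℝ := normSq z.1 + normSq z.2

/-- the fractional linear map of a `3 × 3` matrix on `ℂ²` -/
noncomputable def frac (M : Matrix (Fin 3) (Fin 3) ℂ) (z : ℂ × ℂ) : ℂ × ℂ :=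
  ((M 0 0 * z.1 + M 0 1 * z.2 + M 0 2) / (M 2 0 * z.1 + M 2 1 * z.2 + M 2 2),
   (M 1 0 * z.1 + M 1 1 * z.2 + M 1 2) / (M 2 0 * z.1 + M 2 1 * z.2 + M 2 2))

/-- `ρ` maps `G` to a discrete cocompact subgroup of `U(2,1)`: the action of `G` on the unit ball
`{nsq z < 1}` of `ℂ²` by fractional linear maps is properly discontinuous and cocompact. -/
structure BallLattice {G : Type} [Group G] (ρ : G →* Matrix (Fin 3) (Fin 3) ℂ) : Prop where
  unitary : ∀ g, (ρ g).conjTranspose * J * ρ g = J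
  discrete : ∀ r : ℝ, r < 1 → {g : G | ∃ z, nsq z ≤ r ∧ nsq (frac (ρ g) z) ≤ r}.Finite
  cocompact : ∃ r : ℝ, r < 1 ∧ ∀ z, nsq z < 1 → ∃ g, nsq (frac (ρ g) z) ≤ r

/-- torsion-free -/
def TorsionFree (G : Type) [Group G] : Prop := ∀ g : G, g ≠ 1 → ∀ n : ℕ, 0 < n → g ^ n ≠ 1

/-- a-T-menability (the Haagerup property): there is a proper function which is conditionally of
negative type -/
def Haagerup (G : Type) [Group G] : Prop :=
  ∃ ψ : G → ℝ, ψ 1 = 0 ∧ (∀ g, ψ g⁻¹ = ψ g) ∧ (∀ R : ℝ, {g | ψ g ≤ R}.Finite) ∧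
    ∀ (s : Finset G) (c : G → ℝ), ∑ g ∈ s, c g = 0 →
      ∑ g ∈ s, ∑ h ∈ s, c g * c h * ψ (g⁻¹ * h) ≤ 0

/-- `G` is virtually RFRS (residually finite rationally solvable): there is a decreasing sequence of
finite-index subgroups `H 0 ≥ H 1 ≥ …` of `G` with trivial intersection such that every `g ∈ H n`
which is killed by all homomorphisms `H n → ℤ` lies in `H (n + 1)`. -/
def VirtuallyRFRS (G : Type) [Group G] : Prop :=
  ∃ H : ℕ → Subgroup G, Antitone H ∧ (∀ n, (H n).FiniteIndex) ∧ (⨅ n, H n) = ⊥ ∧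
    ∀ (n : ℕ) (g : G) (hg : g ∈ H n),
      (∀ χ : H n →* Multiplicative ℤ, χ ⟨g, hg⟩ = 1) → g ∈ H (n + 1)

theorem latt_of {G : Type} [Group G] {ρ : G →* Matrix (Fin 3) (Fin 3) ℂ} (h : BallLattice ρ) :
    Pool.Agent.H89.SG.Latt ρ :=
  ⟨h.unitary, h.discrete, h.cocompact⟩

/-- virtually RFRS groups have no infinite subgroup with property FM -/
theorem not_fm_of_rfrs {G : Type} [Group G] (hG : VirtuallyRFRS G) (K : Subgroup G)
    (hK : (K : Set G).Infinite) : ¬ FM K := by
  classical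
  obtain ⟨H, hanti, hfin, hinf, hker⟩ := hG
  -- the subgroups `H n ∩ K` of `K`
  let L : ℕ → Subgroup K := fun n => (H n).subgroupOf K
  have hL : ∀ n, (L n).FiniteIndex := by
    intro n
    have := hfin n
    exact inferInstance
  -- `H 0 ∩ K` is not trivial
  have hne : ∃ k : K, k ∈ L 0 ∧ k ≠ 1 := by
    by_contra hcon
    push Not at hcon
    have hbot : L 0 = ⊥ := (Subgroup.eq_bot_iff_forall _).2 hcon
    have h1 := (hL 0).index_ne_zero
    rw [hbot, Subgroup.index_bot] at h1
    have h2 : Infinite K := hK.to_subtype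
    exact h1 Nat.card_eq_zero_of_infinite
  obtain ⟨k, hk0, hk1⟩ := hne
  -- the last `n` with `k ∈ H n`
  have hex : ∃ n, (k : G) ∉ H n := by
    by_contra hcon
    push Not at hcon
    have h1 : (k : G) ∈ (⨅ n, H n) := Subgroup.mem_iInf.2 hcon
    rw [hinf, Subgroup.mem_bot] at h1
    exact hk1 (Subtype.ext h1)
  obtain ⟨n, hn, hn'⟩ : ∃ n, (k : G) ∈ H n ∧ (k : G) ∉ H (n + 1) := by
    let N := Nat.find hex
    have hN : (k : G) ∉ H N := Nat.find_spec hex
    have hN0 : N ≠ 0 := by
      intro h0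
      rw [h0] at hN
      exact hN (Subgroup.mem_subgroupOf.1 hk0)
    obtain ⟨n, hn⟩ := Nat.exists_eq_succ_of_ne_zero hN0
    refine ⟨n, ?_, by rw [← Nat.succ_eq_add_one, ← hn]; exact hN⟩
    by_contra hcon
    have := Nat.find_min' hex hcon
    omega
  obtain ⟨χ, hχ⟩ : ∃ χ : H n →* Multiplicative ℤ, χ ⟨k, hn⟩ ≠ 1 := by
    by_contra hcon
    push Not at hcon
    exact hn' (hker n k hn hcon)
  let ι : L n →* H n :=
    { toFun := fun x => ⟨((x : K) : G), Subgroup.mem_subgroupOf.1 x.2⟩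
      map_one' := rfl
      map_mul' := fun _ _ => rfl }
  have hne' : χ.comp ι ≠ 1 := by
    intro h0
    have h1 := DFunLike.congr_fun h0 (⟨k, Subgroup.mem_subgroupOf.2 hn⟩ : L n)
    exact hχ h1
  have := hL n
  obtain ⟨X, inst, hm, hno⟩ := H84.Sch.not_fm_of_hom (L n) (χ.comp ι) hne'
  intro hFM
  obtain ⟨x, hx⟩ := @hFM X inst hm
  exact hno x hx

/-- **Main result.** Let `G` be a torsion-free group with finite generating set `S`, which acts
properly discontinuously and cocompactly on the unit ball of `ℂ²` through a homomorphism to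
`U(2,1)`. Then `G` is hyperbolic and a-T-menable (both known), and it has a nontrivial Schreier
growth gap. If moreover `G` is virtually RFRS, then no infinite subgroup of `G` has property FM. -/
theorem result (G : Type) [Group G] (S : Finset G) (ρ : G →* Matrix (Fin 3) (Fin 3) ℂ)
    (hS : Subgroup.closure (S : Set G) = ⊤) (htf : TorsionFree G) (hρ : BallLattice ρ) :
    HasNontrivialGap G S ∧ Hyperbolic G S ∧ Haagerup G ∧
      (VirtuallyRFRS G → ∀ K : Subgroup G, (K : Set G).Infinite → ¬ FM K) := by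
  have hL := latt_of hρ
  refine ⟨?_, ⟨hS, ?_⟩, Pool.Agent.H89.SG.haag hL, fun hG K hK => not_fm_of_rfrs hG K hK⟩
  · obtain ⟨f, hf1, hf0, hfm, hf2⟩ := Pool.Agent.H89.SG.gap_of_latt hL htf S hS
    refine ⟨f, hf1, ?_⟩
    intro X _ hX
    refine ⟨1, one_pos, fun n => ?_⟩
    obtain ⟨x, hx⟩ := hf2 X hX n
    refine ⟨x, ?_⟩
    rw [Nat.cast_one, one_mul, one_mul]
    exact hx
  · exact Pool.Agent.H49.HY.hyp_of_bact (hL.bact htf) hS

end Pool.Agent.Results.MP_b77ed1_al.BallGap
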