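import Pool.Agent.H84.Sch.Final
import Pool.Agent.H84.Sch.Fin
import Pool.Agent.H84.Sch.FMZ

/-!
# Schreier growth gaps and homomorphisms from finite-index subgroups to `ℤ`

Let `G` be a finitely presented (for example hyperbolic) group and `K` an infinite finitely
generated subgroup such that every homomorphism from a finite-index subgroup `H` of `G` to `ℤ`
vanishes on `H ∩ K`. Then `n √(log n)` is a Schreier growth gap of `G`. For hyperbolic `G` the
subgroup `K` need not be finitely generated. In particular, in the known criterion for hyperbolic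
groups (an infinite subgroup with property FM) one can replace FM by the weaker property that no
finite-index subgroup of `K` maps onto `ℤ`.
-/

namespace Pool.Agent.Results.MP_b77ed1_al.NoVirtualZ

/-- The word metric of `G` with respect to `S`: the distance in the Cayley graph. -/
noncomputable def wd {G : Type} [Group G] (S : Finset G) (g h : G) : ℕ :=
  (SimpleGraph.fromRel fun a b : G => a⁻¹ * b ∈ S).dist g h

/-- `S` generates `G` and the word metric satisfies the four-point condition. -/
def Hyperbolic (G : Type) [Group G] (S : Finset G) : Prop :=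
  Subgroup.closure (S : Set G) = ⊤ ∧
    ∃ δ : ℕ, ∀ x y z w : G, wd S x y + wd S z w ≤
      max (wd S x z + wd S y w) (wd S x w + wd S y z) + 2 * δ

/-- The ball of radius `m` around `x` in the Schreier graph of a `G`-set. -/
def ball {G : Type} [Group G] (S : Finset G) {X : Type} [MulAction G X] (m : ℕ) (x : X) :
    Set X :=
  {y | ∃ g : G, wd S 1 g ≤ m ∧ g • x = y}

/-- `f` is a Schreier growth gap of `G`. -/
def IsGap (G : Type) [Group G] (S : Finset G) (f : ℕ → ℝ) : Prop :=
  ∀ (X : Type) [MulAction G X], FaithfulSMul G X →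
    ∃ C : ℕ, 0 < C ∧ ∀ n : ℕ, ∃ x : X, f n ≤ (C : ℝ) * ((ball S (C * n) x).ncard : ℝ)

/-- `G` has a nontrivial (superlinear) Schreier growth gap. -/
def HasNontrivialGap (G : Type) [Group G] (S : Finset G) : Prop :=
  ∃ f : ℕ → ℝ, Filter.Tendsto (fun n : ℕ => f n / (n : ℝ)) Filter.atTop Filter.atTop ∧
    IsGap G S f

/-- Property FM: every action with an invariant mean has a finite orbit. -/
def FM (K : Type) [Group K] : Prop :=
  ∀ (X : Type) [MulAction K X],
    (∃ m : Set X → ℝ, (∀ A, 0 ≤ m A) ∧ m Set.univ = 1 ∧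
      (∀ A B, Disjoint A B → m (A ∪ B) = m A + m B) ∧
      ∀ (k : K) (A : Set X), m ((fun x => k • x) ⁻¹' A) = m A) →
    ∃ x : X, (MulAction.orbit K x).Finite

/-- Some homomorphism to `ℤ` from a finite-index subgroup of `G` is not zero on `K`. -/
def Detected {G : Type} [Group G] (K : Subgroup G) : Prop :=
  ∃ H : Subgroup G, H.FiniteIndex ∧ ∃ (χ : H →* Multiplicative ℤ) (k : G) (hk : k ∈ H),
    k ∈ K ∧ χ ⟨k, hk⟩ ≠ 1

/-- `S` generates `G`, and `G` is finitely presented or hyperbolic. -/
def Admissible (G : Type) [Group G] (S : Finset G) : Prop :=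
  Subgroup.closure (S : Set G) = ⊤ ∧ (Group.IsFinitelyPresented G ∨ Hyperbolic G S)

/-- `f` is a Schreier growth gap with a constant which does not depend on the action. -/
def IsUniformGap (G : Type) [Group G] (S : Finset G) (f : ℕ → ℝ) : Prop :=
  ∃ C : ℕ, 0 < C ∧ ∀ (X : Type) [MulAction G X], FaithfulSMul G X → ∀ n : ℕ, ∃ x : X,
    f n ≤ (C : ℝ) * ((ball S (C * n) x).ncard : ℝ)

/-- No finite-index subgroup of `K` has a nonzero homomorphism to `ℤ`. -/
def HasNoVirtualZ (K : Type) [Group K] : Prop :=
  ∀ L : Subgroup K, L.FiniteIndex → ∀ χ : L →* Multiplicative ℤ, χ = 1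

/-- Every infinite finitely generated subgroup of `G` is detected (if `G` is hyperbolic, every
infinite subgroup), and every element of infinite order lies outside some finite-index subgroup. -/
def AllDetected (G : Type) [Group G] (S : Finset G) : Prop :=
  (∀ K : Subgroup G, (K : Set G).Infinite → (K.FG ∨ Hyperbolic G S) → Detected K) ∧
    ∀ g : G, (∀ n : ℕ, 0 < n → g ^ n ≠ 1) → ∃ H : Subgroup G, H.FiniteIndex ∧ g ∉ H

/-- The negated form of Q1. -/
def NegatedQ1 : Prop :=
  ∀ (G : Type) [Group G] (S : Finset G), Hyperbolic G S → HasNontrivialGap G S →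
    ∃ K : Subgroup G, (K : Set G).Infinite ∧ FM K

theorem dead_of_not_detected {G : Type} [Group G] {K : Subgroup G} (h : ¬ Detected K) :
    H84.Sch.Dead K := by
  intro H hH χ k hk hkK
  by_contra hne
  exact h ⟨H, hH, χ, k, hk, hkK, hne⟩

theorem tendsto_gap :
    Filter.Tendsto (fun n : ℕ => ((n : ℝ) * √(Real.log n)) / (n : ℝ)) Filter.atTop
      Filter.atTop := by
  have h1 : Filter.Tendsto (fun n : ℕ => √(Real.log (n : ℝ))) Filter.atTop Filter.atTop :=
    Real.tendsto_sqrt_atTop.comp (Real.tendsto_log_atTop.comp tendsto_natCast_atTop_atTop)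
  refine h1.congr' ?_
  filter_upwards [Filter.eventually_gt_atTop 0] with n hn
  have hn' : (n : ℝ) ≠ 0 := by exact_mod_cast hn.ne'
  rw [mul_div_assoc, mul_comm, div_mul_cancel₀ _ hn']

theorem detected_mono {G : Type} [Group G] {K K' : Subgroup G} (h : K ≤ K')
    (hK : Detected K) : Detected K' := by
  obtain ⟨H, hH, χ, k, hk, hkK, hne⟩ := hK
  exact ⟨H, hH, χ, k, hk, h hkK, hne⟩

/-- the uniform form of the gap -/
theorem uniform_gap {G : Type} [Group G] {S : Finset G}
    (hcl : Subgroup.closure (S : Set G) = ⊤)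
    (hG : Group.IsFinitelyPresented G ∨ Hyperbolic G S) {K : Subgroup G}
    (hfg : K.FG ∨ Hyperbolic G S)
    (hinf : (K : Set G).Infinite) (hK : ¬ Detected K) :
    IsUniformGap G S (fun n => (n : ℝ) * √(Real.log n)) := by
  wlog hfg' : K.FG generalizing K
  · rcases hfg with h | h
    · exact absurd h hfg'
    · obtain ⟨-, δ, hδ⟩ := h
      obtain ⟨A, hA, hAinf⟩ := H84.Sch.exists_fg_infinite hcl (δ := δ) hδ K hinf
      exact this (K := Subgroup.closure (A : Set G)) (Or.inl ⟨A, rfl⟩) hAinf
        (fun hd => hK (detected_mono ((Subgroup.closure_le K).2 hA) hd)) ⟨A, rfl⟩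
  obtain ⟨A, rfl⟩ := hfg'
  obtain ⟨N, hN⟩ : ∃ N, H84.Sch.LG (H84.Sch.Sym S) N := by
    rcases hG with h | h
    · obtain ⟨N, hN⟩ := H84.Sch.LG_of_fp (H84.Sch.SymF S) (H84.Sch.SymF_inv S) (by
        rw [H84.Sch.coe_SymF]
        exact H84.Sch.Sym_closure hcl)
      exact ⟨N, by rwa [H84.Sch.coe_SymF] at hN⟩
    · obtain ⟨-, δ, hδ⟩ := h
      exact ⟨_, H84.Sch.LG_of_hyp hcl (δ := δ) hδ⟩
  exact H84.Sch.main_gap S hcl hN A hinf (dead_of_not_detected hK)

theorem gap_of_not_detected {G : Type} [Group G] {S : Finset G}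
    (hcl : Subgroup.closure (S : Set G) = ⊤)
    (hG : Group.IsFinitelyPresented G ∨ Hyperbolic G S) {K : Subgroup G}
    (hfg : K.FG ∨ Hyperbolic G S) (hinf : (K : Set G).Infinite) (hK : ¬ Detected K) :
    IsGap G S (fun n => (n : ℝ) * √(Real.log n)) := by
  obtain ⟨C, hC, h⟩ := uniform_gap hcl hG hfg hinf hK
  intro X _ hX
  exact ⟨C, hC, h X hX⟩

/-- Property FM implies the absence of virtual homomorphisms to `ℤ`. -/
theorem noZ_of_fm {K : Type} [Group K] (h : FM K) : HasNoVirtualZ K := by
  intro L hL χ
  by_contra hχ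
  obtain ⟨X, inst, hm, hno⟩ := H84.Sch.not_fm_of_hom L χ hχ
  obtain ⟨x, hx⟩ := h X hm
  exact hno x hx

theorem not_detected_of_noZ {G : Type} [Group G] {K : Subgroup G} (h : HasNoVirtualZ K) :
    ¬ Detected K := by
  rintro ⟨H, hH, χ, k, hk, hkK, hne⟩
  apply hne
  let L : Subgroup K := H.subgroupOf K
  have hL : L.FiniteIndex := inferInstance
  let ι : L →* H :=
    { toFun := fun x => ⟨((x : K) : G), Subgroup.mem_subgroupOf.1 x.2⟩
      map_one' := rfl
      map_mul' := fun _ _ => rfl }
  have h1 := h L hL (χ.comp ι)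
  have h2 := DFunLike.congr_fun h1 (⟨⟨k, hkK⟩, Subgroup.mem_subgroupOf.2 hk⟩ : L)
  exact h2

theorem separated_of_detected {G : Type} [Group G] {g : G}
    (h : Detected (Subgroup.zpowers g)) : ∃ H : Subgroup G, H.FiniteIndex ∧ g ∉ H := by
  obtain ⟨H, hH, χ, k, hk, hkK, hne⟩ := h
  obtain ⟨m, rfl⟩ := Subgroup.mem_zpowers_iff.1 hkK
  by_cases hgH : g ∈ H
  · set c : ℤ := Multiplicative.toAdd (χ ⟨g, hgH⟩) with hc
    have hcm : Multiplicative.toAdd (χ ⟨g ^ m, hk⟩) = m * c := by
      have h1 : (⟨g ^ m, hk⟩ : H) = (⟨g, hgH⟩ : H) ^ m := Subtype.ext rfl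
      rw [h1, map_zpow, toAdd_zpow, smul_eq_mul]
    have hc0 : c ≠ 0 := by
      intro h0
      apply hne
      rw [h0, mul_zero] at hcm
      exact Multiplicative.toAdd.injective hcm
    let N : ℕ := c.natAbs + 1
    have hN : NeZero N := ⟨Nat.succ_ne_zero _⟩
    let θ : H →* Multiplicative (ZMod N) :=
      (AddMonoidHom.toMultiplicative (Int.castAddHom (ZMod N))).comp χ
    have hfin : Finite (Multiplicative (ZMod N)) :=
      Finite.of_equiv (ZMod N) Multiplicative.ofAdd
    have hker : θ.ker.FiniteIndex := inferInstance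
    refine ⟨θ.ker.map H.subtype, ⟨?_⟩, ?_⟩
    · rw [Subgroup.index_map_subtype]
      exact mul_ne_zero hker.index_ne_zero hH.index_ne_zero
    · rintro ⟨⟨g', hg'⟩, hmem, hgg⟩
      have hgg' : g' = g := hgg
      subst hgg'
      have h1 : ((c : ℤ) : ZMod N) = 0 := by
        have h2 : θ ⟨g', hg'⟩ = 1 := hmem
        exact Multiplicative.ofAdd.injective h2
      rw [ZMod.intCast_zmod_eq_zero_iff_dvd] at h1
      have h3 := Int.natAbs_dvd_natAbs.2 h1
      have h4 := Nat.le_of_dvd (Int.natAbs_pos.2 hc0) h3
      simp only [Int.natAbs_natCast] at h4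
      omega
  · exact ⟨H, hH, hgH⟩

/-- the consequences of the absence of a nontrivial gap -/
theorem of_no_gap {G : Type} [Group G] {S : Finset G}
    (hcl : Subgroup.closure (S : Set G) = ⊤)
    (hG : Group.IsFinitelyPresented G ∨ Hyperbolic G S) (hno : ¬ HasNontrivialGap G S) :
    AllDetected G S := by
  have h1 : ∀ K : Subgroup G, (K : Set G).Infinite → (K.FG ∨ Hyperbolic G S) → Detected K := by
    intro K hinf hfg
    by_contra hK
    exact hno ⟨_, tendsto_gap, gap_of_not_detected hcl hG hfg hinf hK⟩
  refine ⟨h1, fun g hg => separated_of_detected (h1 _ ?_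
    (Or.inl ⟨{g}, by rw [Finset.coe_singleton, Subgroup.zpowers_eq_closure]⟩))⟩
  · apply Set.infinite_of_injective_forall_mem (f := fun n : ℕ => g ^ n)
    · intro a b hab
      have hab' : g ^ a = g ^ b := hab
      wlog hlt : a < b generalizing a b
      · rcases Nat.lt_or_ge b a with h2 | h2
        · exact (this hab'.symm hab'.symm h2).symm
        · omega
      exfalso
      apply hg (b - a) (by omega)
      have h2 : g ^ b = g ^ a * g ^ (b - a) := by
        rw [← pow_add]
        congr 1
        omega
      rw [h2] at hab'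
      exact (mul_eq_left.1 hab'.symm)
    · intro n
      exact ⟨n, by simp⟩

/-- **Main result.**
(1) Let `G` be finitely presented or hyperbolic, and `K` an infinite subgroup, finitely generated
if `G` is not hyperbolic, on which all homomorphisms `H → ℤ`, `H ≤ G` of finite index, vanish.
Then `n √(log n)` is a Schreier growth gap of `G`, with a constant which does not depend on the
action.
(2) In particular, a hyperbolic group with an infinite subgroup `K` such that no finite-index
subgroup of `K` has a nonzero homomorphism to `ℤ` has this gap, which is nontrivial.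
(3) A finitely presented or hyperbolic group without nontrivial gap has: every infinite finitely
generated subgroup (in the hyperbolic case, every infinite subgroup) is detected by a homomorphism
to `ℤ` from a finite-index subgroup of `G`, and every element of infinite order lies outside some
finite-index subgroup.
(4) If Q1 has a negative answer, the conclusions of (3) hold for all hyperbolic groups without
infinite FM subgroups.
(5) Property FM implies the hypothesis on `K` in (2). -/
theorem result :
    (∀ (G : Type) [Group G] (S : Finset G), Admissible G S →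
      ∀ K : Subgroup G, (K : Set G).Infinite → (K.FG ∨ Hyperbolic G S) → ¬ Detected K →
      IsUniformGap G S (fun n => (n : ℝ) * √(Real.log n))) ∧
    (∀ (G : Type) [Group G] (S : Finset G), Hyperbolic G S →
      ∀ K : Subgroup G, (K : Set G).Infinite → HasNoVirtualZ K → HasNontrivialGap G S) ∧
    (∀ (G : Type) [Group G] (S : Finset G), Admissible G S → ¬ HasNontrivialGap G S →
      AllDetected G S) ∧
    (NegatedQ1 → ∀ (G : Type) [Group G] (S : Finset G), Hyperbolic G S →
      (∀ K : Subgroup G, (K : Set G).Infinite → ¬ FM K) → AllDetected G S) ∧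
    ∀ (K : Type) [Group K], FM K → HasNoVirtualZ K := by
  refine ⟨?_, ?_, ?_, ?_, ?_⟩
  · intro G _ S hG K hinf hfg hK
    exact uniform_gap hG.1 hG.2 hfg hinf hK
  · intro G _ S hG K hinf hL
    exact ⟨_, tendsto_gap, gap_of_not_detected hG.1 (Or.inr hG) (Or.inr hG) hinf
      (not_detected_of_noZ hL)⟩
  · intro G _ S hG hno
    exact of_no_gap hG.1 hG.2 hno
  · intro hneg G _ S hG hFM
    refine of_no_gap hG.1 (Or.inr hG) fun hgap => ?_
    obtain ⟨K, hK, hKFM⟩ := hneg G S hG hgap
    exact hFM K hK hKFM
  · intro K _ hK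
    exact noZ_of_fm hK

end Pool.Agent.Results.MP_b77ed1_al.NoVirtualZ
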